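import Pool.Agent.Helper4.PQ0.St
import Pool.Agent.Helper16.OS.M_TWA

/-!
# Project PQS (MP_2b6189_al), module TIX: the identity in the second case
-/

set_option autoImplicit false

namespace Pool.Agent.Helper10.PQ0

open Pool.Agent.Helper4.PQ0
open Matrix ComplexConjugate Pool.Agent.Helper94.YF Pool.Agent.Helper94.YG
open Pool.Agent.Helper89.OS hiding PD Cx Blk B0 Orb StXA StXB StXC StXE StCGR StISO StBLK StAMG StHEC StSTL StMZZ StDRE StTSU
open Pool.Agent.Helper89.OC hiding Ks gX OB Lk StORB StTS2 StLKD StTAN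

/-- `pi c` as a permutation -/
def TIX_piE {I : Type} [Fintype I] [DecidableEq I] {p a : ℕ} (X : PD I p a)
    (c : (ZMod (p ^ a))ˣ) : I ≃ I where
  toFun := X.pi c
  invFun := X.pi c⁻¹
  left_inv i := by rw [← X.pi_mul, inv_mul_cancel, X.pi_one]
  right_inv i := by rw [← X.pi_mul, mul_inv_cancel, X.pi_one]

/-- invariance of the transform -/
theorem TIX_inv {I : Type} [Fintype I] [DecidableEq I] {p a : ℕ} (X : PD I p a) (f : I → ℂ)
    (hf : ∀ c i, f (X.pi c i) = f i) (c : (ZMod (p ^ a))ˣ) (i : I) :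
    ∑ k, X.s (X.pi c i) k * f k = ∑ k, X.s i k * f k := by
  rw [← Equiv.sum_comp (TIX_piE X c) (fun k => X.s i k * f k)]
  refine Finset.sum_congr rfl fun k _ => ?_
  change X.s (X.pi c i) k * f k = X.s i (X.pi c k) * f (X.pi c k)
  rw [hf, X.pi_s]

/-- the square of the transform -/
theorem TIX_sq {I : Type} [Fintype I] [DecidableEq I] {p a : ℕ} (X : PD I p a) (f : I → ℂ)
    (hf : ∀ c i, f (X.pi c i) = f i) (j : I) :
    ∑ k, X.s j k * ∑ i, X.s k i * f i = (p : ℂ) ^ 2 * f j := by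
  have e1 : ∀ k, X.s j k * ∑ i, X.s k i * f i = ∑ i, f i * (X.s j k * X.s k i) := by
    intro k
    rw [Finset.mul_sum]
    refine Finset.sum_congr rfl fun i _ => ?_
    ring
  rw [Finset.sum_congr rfl fun k _ => e1 k, Finset.sum_comm]
  have e2 : ∀ i, ∑ k, f i * (X.s j k * X.s k i) =
      (fun i' => if j = i' then (p : ℂ) ^ 2 * f i' else 0) (TIX_piE X (-1) i) := by
    intro i
    rw [← Finset.mul_sum, X.weil0 j i]
    change _ = if j = X.pi (-1) i then (p : ℂ) ^ 2 * f (X.pi (-1) i) else 0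
    rw [hf]
    split_ifs <;> ring
  rw [Finset.sum_congr rfl fun i _ => e2 i,
    Equiv.sum_comp (TIX_piE X (-1)) (fun i' => if j = i' then (p : ℂ) ^ 2 * f i' else 0)]
  simp

/-- `weil` for an invariant function with support in `t = 1` -/
theorem TIX_weil {I : Type} [Fintype I] [DecidableEq I] {p a : ℕ} (X : PD I p a) (f : I → ℂ)
    (hf : ∀ c i, f (X.pi c i) = f i) (hft : ∀ i, f i ≠ 0 → X.t i = 1) (w : (ZMod (p ^ a))ˣ)
    (j : I) :
    ∑ k, X.t k ^ (w : ZMod (p ^ a)).val * (X.s j k * ∑ i, X.s k i * f i) =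
      (p : ℂ) * (∑ i, X.s j i * f i) *
        X.t j ^ (-((w⁻¹ : (ZMod (p ^ a))ˣ) : ZMod (p ^ a))).val := by
  have e1 : ∀ k, X.t k ^ (w : ZMod (p ^ a)).val * (X.s j k * ∑ i, X.s k i * f i) =
      ∑ i, f i * (X.t k ^ (w : ZMod (p ^ a)).val * (X.s j k * X.s k i)) := by
    intro k
    rw [Finset.mul_sum, Finset.mul_sum]
    refine Finset.sum_congr rfl fun i _ => ?_
    ring
  rw [Finset.sum_congr rfl fun k _ => e1 k, Finset.sum_comm]
  have e2 : ∀ i, ∑ k, f i * (X.t k ^ (w : ZMod (p ^ a)).val * (X.s j k * X.s k i)) =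
      (fun i' => (p : ℂ) * X.t j ^ (-((w⁻¹ : (ZMod (p ^ a))ˣ) : ZMod (p ^ a))).val *
        (X.s j i' * f i')) (TIX_piE X w⁻¹ i) := by
    intro i
    rw [← Finset.mul_sum, X.weil w j i]
    change _ = (p : ℂ) * X.t j ^ (-((w⁻¹ : (ZMod (p ^ a))ˣ) : ZMod (p ^ a))).val *
        (X.s j (X.pi w⁻¹ i) * f (X.pi w⁻¹ i))
    rw [hf]
    by_cases h : f i = 0
    · rw [h]
      ring
    · rw [hft i h, one_pow]
      ring
  rw [Finset.sum_congr rfl fun i _ => e2 i,
    Equiv.sum_comp (TIX_piE X w⁻¹) (fun i' => (p : ℂ) *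
      X.t j ^ (-((w⁻¹ : (ZMod (p ^ a))ˣ) : ZMod (p ^ a))).val * (X.s j i' * f i')),
    ← Finset.mul_sum]
  ring

open Classical in
/-- step (1): the truncated transform is an eigenvector -/
theorem TIX_one {I : Type} [Fintype I] [DecidableEq I] {p : ℕ} (X : PD I p 2) {Q : ℂ → Prop}
    (hB : Blk X Q) (hH : ∀ k, X.y k ≠ 0 → X.t k ^ p = 1 → X.t k = 1) (f : I → ℂ)
    (hf : ∀ c i, f (X.pi c i) = f i) (hft : ∀ i, f i ≠ 0 → X.t i = 1) (i : I) :
    ∑ k, X.s i k * (if X.y k ≠ 0 ∧ X.t k = 1 then ∑ j, X.s k j * f j else 0) =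
      (p : ℂ) * (if X.y i ≠ 0 ∧ X.t i = 1 then ∑ j, X.s i j * f j else 0) := by
  have hp : p.Prime := X.prime
  have : NeZero (p ^ 2) := ⟨pow_ne_zero _ hp.ne_zero⟩
  have hp0 : (p : ℂ) ≠ 0 := by exact_mod_cast hp.ne_zero
  have hp1 : (p : ℂ) - 1 ≠ 0 := by
    intro h
    have h1 : (p : ℂ) = ((1 : ℕ) : ℂ) := by
      rw [Nat.cast_one]
      exact sub_eq_zero.1 h
    have h2 : p = 1 := by exact_mod_cast h1
    exact hp.one_lt.ne' h2
  by_cases hyi : X.y i = 0
  · rw [if_neg (fun h => h.1 hyi), mul_zero]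
    apply Finset.sum_eq_zero
    intro k _
    split_ifs with h
    · rw [X.s_symm, hB.sup k i h.1 hyi, zero_mul]
    · rw [mul_zero]
  · have hroot : ∀ k, X.y k ≠ 0 → ∑ w : (ZMod (p ^ 2))ˣ, X.t k ^ (w : ZMod (p ^ 2)).val =
        if X.t k = 1 then (p : ℂ) ^ 2 - p else 0 := by
      intro k hk
      rw [Pool.Agent.Helper16.OS.TWA_T hp (X.t k) (X.t_pow k)]
      by_cases h1 : X.t k = 1
      · rw [if_pos h1, if_pos h1, h1, one_pow, if_pos rfl]
      · rw [if_neg h1, if_neg h1, if_neg (fun h => h1 (hH k hk h)), sub_zero]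
    -- the double sum
    have h1 : ((p : ℂ) ^ 2 - p) *
        (∑ k, X.s i k * (if X.y k ≠ 0 ∧ X.t k = 1 then ∑ j, X.s k j * f j else 0)) =
        ∑ w : (ZMod (p ^ 2))ˣ, ∑ k, X.t k ^ (w : ZMod (p ^ 2)).val *
          (X.s i k * ∑ j, X.s k j * f j) := by
      rw [Finset.sum_comm, Finset.mul_sum]
      refine Finset.sum_congr rfl fun k _ => ?_
      rw [← Finset.sum_mul]
      by_cases hk : X.y k = 0
      · rw [hB.sup i k hyi hk]
        ring
      · rw [hroot k hk]
        by_cases h1 : X.t k = 1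
        · rw [if_pos h1, if_pos ⟨hk, h1⟩]
        · rw [if_neg h1, if_neg (fun h => h1 h.2)]
          ring
    have h2 : ∑ w : (ZMod (p ^ 2))ˣ,
        X.t i ^ (-((w⁻¹ : (ZMod (p ^ 2))ˣ) : ZMod (p ^ 2))).val =
        if X.t i = 1 then (p : ℂ) ^ 2 - p else 0 := by
      rw [← hroot i hyi]
      refine Fintype.sum_equiv ((Equiv.inv _).trans (Equiv.neg _)) _ _ fun w => ?_
      simp only [Equiv.trans_apply, Equiv.inv_apply, Equiv.neg_apply, Units.val_neg]
    rw [Finset.sum_congr rfl fun w _ => TIX_weil X f hf hft w i, ← Finset.mul_sum, h2] at h1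
    have h3 : (p : ℂ) ^ 2 - p ≠ 0 := by
      have : (p : ℂ) ^ 2 - p = p * (p - 1) := by ring
      rw [this]
      exact mul_ne_zero hp0 hp1
    apply mul_left_cancel₀ h3
    rw [h1]
    by_cases h4 : X.t i = 1
    · rw [if_pos h4, if_pos ⟨hyi, h4⟩]
      ring
    · rw [if_neg h4, if_neg (fun h => h4 h.2)]
      ring

open Classical in
theorem TIX_orbInv {I : Type} [Fintype I] [DecidableEq I] {p a : ℕ} (X : PD I p a) (k : I)
    (c : (ZMod (p ^ a))ˣ) (i : I) : X.pi c i ∈ Orb X k ↔ i ∈ Orb X k := by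
  unfold Orb
  simp only [Finset.mem_filter, Finset.mem_univ, true_and]
  constructor
  · rintro ⟨c', h⟩
    refine ⟨c⁻¹ * c', ?_⟩
    rw [X.pi_mul, h, ← X.pi_mul, inv_mul_cancel, X.pi_one]
  · rintro ⟨c', h⟩
    refine ⟨c * c', ?_⟩
    rw [X.pi_mul, h]

theorem TIX_orbEx {I : Type} [Fintype I] [DecidableEq I] {p a : ℕ} (X : PD I p a) (k i : I)
    (h : i ∈ Orb X k) : ∃ c, X.pi c k = i := by
  unfold Orb at h
  simpa using h

theorem hTIX : StTIX := by
  classical
  intro hRAT I _ _ p X Q hB hM hH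
  obtain ⟨hra, hrb⟩ := hRAT
  have hp : p.Prime := X.prime
  have hp0 : (p : ℂ) ≠ 0 := by exact_mod_cast hp.ne_zero
  have hp3 : 3 ≤ p := by
    have h2 := hp.two_le
    rcases h2.lt_or_eq with h | h
    · exact h
    · exfalso
      have := X.p_odd
      rw [← h] at this
      exact absurd this (by decide)
  have hyo : X.y X.o ≠ 0 := by
    intro h
    apply hB.x_nd
    rw [h]
    exact dvd_zero _
  -- the value of `x`
  have hx : 2 * X.y X.o = (p : ℤ) + 1 := by
    obtain ⟨u, hu1, -, hu3⟩ := hM.u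
    obtain ⟨η, hη⟩ : ∃ η : ℂ, IsPrimitiveRoot η p :=
      ⟨_, Complex.isPrimitiveRoot_exp p hp.ne_zero⟩
    have hη1 : η ≠ 1 := hη.ne_one hp.one_lt
    have h1 := hu1 η hη.pow_eq_one hη1
    have h2 : (∑ i, if X.t i = η then X.y i ^ 2 else 0) = 0 := by
      apply Finset.sum_eq_zero
      intro i _
      split_ifs with h
      · have h3 : X.y i = 0 := by
          by_contra hy
          have := hH i hy (by rw [h]; exact hη.pow_eq_one)
          rw [h] at this
          exact hη1 this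
        rw [h3]
        norm_num
      · rfl
    rw [h2] at h1
    rw [← h1] at hu3
    linarith
  have hg1 : 1 ≤ (p : ℤ) - X.y X.o := by
    have : (3 : ℤ) ≤ p := by exact_mod_cast hp3
    omega
  have hgC : (p : ℂ) - X.y X.o ≠ 0 := by
    have : (p : ℤ) - X.y X.o ≠ 0 := by omega
    exact_mod_cast this
  refine ⟨?_, hg1, ?_⟩
  · -- first claim
    have hz : ∀ c i, ((X.z (X.pi c i) : ℤ) : ℂ) = ((X.z i : ℤ) : ℂ) := by
      intro c i
      rw [X.pi_z]
    have hzt : ∀ i, ((X.z i : ℤ) : ℂ) ≠ 0 → X.t i = 1 := by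
      intro i hi
      apply X.z_t
      intro h
      apply hi
      rw [h, Int.cast_zero]
    have h1 := TIX_one X hB hH (fun i => ((X.z i : ℤ) : ℂ)) hz hzt X.o
    simp only [X.sz] at h1
    rw [if_pos ⟨hyo, X.t_o⟩, X.d_o] at h1
    have h2 : ((∑ k, if X.y k ≠ 0 ∧ X.t k = 1 then X.y k * (X.d k : ℤ) else 0 : ℤ) : ℂ) =
        ((p : ℤ) : ℂ) := by
      push_cast
      rw [Nat.cast_one, mul_one] at h1
      rw [← h1]
      refine Finset.sum_congr rfl fun k _ => ?_
      rw [X.s_symm X.o k, X.s_o]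
      split_ifs <;> simp
    have h3 : (∑ k, if X.y k ≠ 0 ∧ X.t k = 1 then X.y k * (X.d k : ℤ) else 0 : ℤ) = p := by
      exact_mod_cast h2
    have h4 : ∀ k, (if X.y k ≠ 0 ∧ X.t k = 1 then X.y k * (X.d k : ℤ) else 0) =
        (if X.y k ≠ 0 ∧ X.t k = 1 ∧ k ≠ X.o then X.y k * (X.d k : ℤ) else 0) +
        (if k = X.o then X.y X.o else 0) := by
      intro k
      by_cases hk : k = X.o
      · have h5 : X.y k ≠ 0 ∧ X.t k = 1 := by
          rw [hk]
          exact ⟨hyo, X.t_o⟩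
        rw [if_pos hk, if_pos h5,
          if_neg (show ¬ (X.y k ≠ 0 ∧ X.t k = 1 ∧ k ≠ X.o) from fun h => h.2.2 hk), hk, X.d_o]
        push_cast
        ring
      · rw [if_neg hk, add_zero]
        by_cases h5 : X.y k ≠ 0 ∧ X.t k = 1
        · rw [if_pos h5, if_pos ⟨h5.1, h5.2, hk⟩]
        · rw [if_neg h5, if_neg (fun h => h5 ⟨h.1, h.2.1⟩)]
    rw [Finset.sum_congr rfl fun k _ => h4 k, Finset.sum_add_distrib,
      Finset.sum_ite_eq' Finset.univ X.o (fun _ => X.y X.o), if_pos (Finset.mem_univ _)] at h3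
    linarith
  · -- second claim
    intro k0 hyk htk hko
    -- the element of `E`
    obtain ⟨j0, hj0, hj0t'⟩ := X.ex
    have hj0p : X.t j0 ^ p ≠ 1 := by
      intro h
      apply hj0t'
      rw [show p ^ (2 - 1) = p by rw [show 2 - 1 = 1 from rfl, pow_one]]
      exact h
    have hj0t : X.t j0 ≠ 1 := by
      intro h
      apply hj0p
      rw [h, one_pow]
    have hEp : ∀ k, X.y k ≠ 0 → X.t k ≠ 1 → X.t k ^ p ≠ 1 := fun k h1 h2 h3 => h2 (hH k h1 h3)
    have hEorb : ∀ k, X.y k ≠ 0 → X.t k ≠ 1 → ∃ c, X.pi c j0 = k :=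
      fun k h1 h2 => hM.orb j0 k hj0 hj0p h1 (hEp k h1 h2)
    -- the function `e` and its transform
    obtain ⟨e, he⟩ : ∃ e : I → ℂ, ∀ i, e i = if i = X.o then 1 else 0 := ⟨_, fun i => rfl⟩
    obtain ⟨T, hT⟩ : ∃ T : I → ℂ, ∀ i, T i = if i ∈ Orb X k0 then 1 else 0 := ⟨_, fun i => rfl⟩
    have hpio : ∀ c i, X.pi c i = X.o ↔ i = X.o := by
      intro c i
      constructor
      · intro h
        have h1 := congrArg (X.pi c⁻¹) h
        rwa [← X.pi_mul, inv_mul_cancel, X.pi_one, X.pi_o] at h1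
      · intro h
        rw [h, X.pi_o]
    have heinv : ∀ c i, e (X.pi c i) = e i := by
      intro c i
      rw [he, he]
      simp only [hpio]
    have hTinv : ∀ c i, T (X.pi c i) = T i := by
      intro c i
      rw [hT, hT]
      simp only [TIX_orbInv]
    have het : ∀ i, e i ≠ 0 → X.t i = 1 := by
      intro i hi
      rw [he] at hi
      have : i = X.o := by
        by_contra h
        rw [if_neg h] at hi
        exact hi rfl
      rw [this, X.t_o]
    have hTmem : ∀ i, T i ≠ 0 → i ∈ Orb X k0 := by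
      intro i hi
      rw [hT] at hi
      by_contra h
      rw [if_neg h] at hi
      exact hi rfl
    have hTt : ∀ i, T i ≠ 0 → X.t i = 1 := by
      intro i hi
      obtain ⟨c, hc⟩ := TIX_orbEx X k0 i (hTmem i hi)
      rw [← hc, X.pi_t, htk, one_pow]
    have hTy : ∀ i ∈ Orb X k0, X.y i = X.y k0 := by
      intro i hi
      obtain ⟨c, hc⟩ := TIX_orbEx X k0 i hi
      rw [← hc, X.pi_y]
    have hoT : X.o ∉ Orb X k0 := by
      intro h
      obtain ⟨c, hc⟩ := TIX_orbEx X k0 _ h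
      exact hko ((hpio c k0).1 hc)
    have hFe : ∀ i, ∑ k, X.s i k * e k = X.y i := by
      intro i
      have h1 : ∀ k ∈ (Finset.univ : Finset I), X.s i k * e k =
          if k = X.o then X.s i k else 0 := by
        intro k _
        rw [he]
        split_ifs <;> ring
      rw [Finset.sum_congr rfl h1, Finset.sum_ite_eq' Finset.univ X.o (fun k => X.s i k),
        if_pos (Finset.mem_univ _), X.s_o]
    obtain ⟨F, hF⟩ : ∃ F : I → ℂ, ∀ i, F i = ∑ k, X.s i k * T k := ⟨_, fun i => rfl⟩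
    have hFT : ∀ i, F i = ∑ k ∈ Orb X k0, X.s i k := by
      intro i
      rw [hF]
      have h1 : ∀ k ∈ (Finset.univ : Finset I), X.s i k * T k =
          if k ∈ Orb X k0 then X.s i k else 0 := by
        intro k _
        rw [hT]
        split_ifs <;> ring
      rw [Finset.sum_congr rfl h1, Finset.sum_ite_mem, Finset.univ_inter]
    have hFinv : ∀ c i, F (X.pi c i) = F i := by
      intro c i
      rw [hF, hF]
      exact TIX_inv X T hTinv c i
    have hF0 : ∀ i, X.y i = 0 → F i = 0 := by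
      intro i hi
      rw [hFT]
      apply Finset.sum_eq_zero
      intro k hk
      rw [X.s_symm]
      apply hB.sup k i _ hi
      rw [hTy k hk]
      exact hyk
    have hFo : F X.o = ((Orb X k0).card : ℂ) * X.y k0 := by
      rw [hFT]
      have h1 : ∀ k ∈ Orb X k0, X.s X.o k = (X.y k0 : ℂ) := by
        intro k hk
        rw [X.s_symm, X.s_o, hTy k hk]
      rw [Finset.sum_congr rfl h1, Finset.sum_const, nsmul_eq_mul]
    -- truncations
    obtain ⟨Y0, hY0⟩ : ∃ Y0 : I → ℂ, ∀ k, Y0 k =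
        if X.y k ≠ 0 ∧ X.t k = 1 then (X.y k : ℂ) else 0 := ⟨_, fun i => rfl⟩
    obtain ⟨F0, hF0'⟩ : ∃ F0 : I → ℂ, ∀ k, F0 k =
        if X.y k ≠ 0 ∧ X.t k = 1 then F k else 0 := ⟨_, fun i => rfl⟩
    have hSY : ∀ i, ∑ k, X.s i k * Y0 k = (p : ℂ) * Y0 i := by
      intro i
      have h1 := TIX_one X hB hH e heinv het i
      simp only [hFe] at h1
      simp only [hY0]
      exact h1
    have hSF : ∀ i, ∑ k, X.s i k * F0 k = (p : ℂ) * F0 i := by
      intro i
      have h1 := TIX_one X hB hH T hTinv hTt i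
      simp only [← hF] at h1
      simp only [hF0']
      exact h1
    -- the constants
    obtain ⟨W, hW⟩ : ∃ W : I → ℂ, ∀ i, W i =
        ∑ k, X.s i k * (if X.y k ≠ 0 ∧ X.t k ≠ 1 then 1 else 0) := ⟨_, fun i => rfl⟩
    have hyE : ∀ k, (X.y k : ℂ) = Y0 k +
        (X.y j0 : ℂ) * (if X.y k ≠ 0 ∧ X.t k ≠ 1 then 1 else 0) := by
      intro k
      rw [hY0]
      by_cases h1 : X.y k = 0
      · rw [if_neg (fun h => h.1 h1), if_neg (fun h => h.1 h1), h1]
        simp
      · by_cases h2 : X.t k = 1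
        · rw [if_pos ⟨h1, h2⟩, if_neg (fun h => h.2 h2)]
          ring
        · rw [if_neg (fun h => h2 h.2), if_pos ⟨h1, h2⟩]
          obtain ⟨c, hc⟩ := hEorb k h1 h2
          rw [← hc, X.pi_y]
          ring
    have hFE : ∀ k, F k = F0 k +
        F j0 * (if X.y k ≠ 0 ∧ X.t k ≠ 1 then 1 else 0) := by
      intro k
      rw [hF0']
      by_cases h1 : X.y k = 0
      · rw [if_neg (fun h => h.1 h1), if_neg (fun h => h.1 h1), hF0 k h1]
        simp
      · by_cases h2 : X.t k = 1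
        · rw [if_pos ⟨h1, h2⟩, if_neg (fun h => h.2 h2)]
          ring
        · rw [if_neg (fun h => h2 h.2), if_pos ⟨h1, h2⟩]
          obtain ⟨c, hc⟩ := hEorb k h1 h2
          rw [← hc, hFinv]
          ring
    have hsqe : ∀ i, (p : ℂ) * Y0 i + (X.y j0 : ℂ) * W i = (p : ℂ) ^ 2 * e i := by
      intro i
      have h1 := TIX_sq X e heinv i
      simp only [hFe] at h1
      rw [← h1, ← hSY, hW, Finset.mul_sum, ← Finset.sum_add_distrib]
      refine Finset.sum_congr rfl fun k _ => ?_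
      rw [hyE k]
      ring
    have hsqT : ∀ i, (p : ℂ) * F0 i + F j0 * W i = (p : ℂ) ^ 2 * T i := by
      intro i
      have h1 := TIX_sq X T hTinv i
      simp only [← hF] at h1
      rw [← h1, ← hSF, hW, Finset.mul_sum, ← Finset.sum_add_distrib]
      refine Finset.sum_congr rfl fun k _ => ?_
      rw [hFE k]
      ring
    have hε : (X.y j0 : ℂ) ^ 2 = 1 := by
      have := hM.sq j0 hj0 hj0p
      exact_mod_cast this
    have hmain : ∀ i, (X.y j0 : ℂ) * ((p : ℂ) * F0 i) + F j0 * ((p : ℂ) ^ 2 * e i -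
        (p : ℂ) * Y0 i) = (X.y j0 : ℂ) * ((p : ℂ) ^ 2 * T i) := by
      intro i
      have h1 := hsqe i
      have h2 := hsqT i
      linear_combination (X.y j0 : ℂ) * h2 - F j0 * h1
    -- the value at `o`
    have hφ : F j0 * ((p : ℂ) - X.y X.o) = -((X.y j0 : ℂ) * (((Orb X k0).card : ℂ) * X.y k0)) := by
      have h1 := hmain X.o
      rw [he, if_pos rfl, hT, if_neg hoT, hF0', if_pos ⟨hyo, X.t_o⟩, hFo, hY0,
        if_pos ⟨hyo, X.t_o⟩] at h1
      apply mul_left_cancel₀ hp0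
      linear_combination h1
    -- the vector `G`
    obtain ⟨G, hG⟩ : ∃ G : I → ℂ, ∀ i, G i = ((p : ℂ) - X.y X.o) * T i +
        (((Orb X k0).card : ℂ) * X.y k0) * e i := ⟨_, fun i => rfl⟩
    have hpG : ∀ i, (p : ℂ) * G i = ((p : ℂ) - X.y X.o) * F0 i +
        (((Orb X k0).card : ℂ) * X.y k0) * Y0 i := by
      intro i
      have h1 := hmain i
      apply mul_left_cancel₀ hp0
      rw [hG]
      linear_combination (-(X.y j0 : ℂ) * ((p : ℂ) - X.y X.o)) * h1 +
        ((X.y j0 : ℂ) * ((p : ℂ) ^ 2 * e i - (p : ℂ) * Y0 i)) * hφ +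
        (-((p : ℂ) ^ 2 * T i) * ((p : ℂ) - X.y X.o) +
          ((p : ℂ) * F0 i) * ((p : ℂ) - X.y X.o) -
          (((Orb X k0).card : ℂ) * X.y k0) * ((p : ℂ) ^ 2 * e i - (p : ℂ) * Y0 i)) * hε
    have hSG : ∀ i, ∑ k, X.s i k * G k = (p : ℂ) * G i := by
      intro i
      apply mul_left_cancel₀ hp0
      have h1 : (p : ℂ) * ∑ k, X.s i k * G k = ((p : ℂ) - X.y X.o) * ∑ k, X.s i k * F0 k +
          (((Orb X k0).card : ℂ) * X.y k0) * ∑ k, X.s i k * Y0 k := by
        rw [Finset.mul_sum, Finset.mul_sum, Finset.mul_sum, ← Finset.sum_add_distrib]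
        refine Finset.sum_congr rfl fun k _ => ?_
        linear_combination X.s i k * hpG k
      rw [h1, hSF, hSY, hpG]
      ring
    have hGt : ∀ k, G k ≠ 0 → X.t k = 1 := by
      intro k hk
      by_cases h1 : e k = 0
      · by_cases h2 : T k = 0
        · exfalso
          apply hk
          rw [hG, h1, h2]
          ring
        · exact hTt k h2
      · exact het k h1
    have htor := X.tor G hSG hGt j0 hj0t
    have hchi : ∑ k, G k * X.chi j0 k = ((p : ℂ) - X.y X.o) *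
        (∑ i ∈ Orb X k0, X.chi j0 i) + ((Orb X k0).card : ℂ) * X.y k0 := by
      have h1 : ∀ k ∈ (Finset.univ : Finset I), G k * X.chi j0 k =
          ((p : ℂ) - X.y X.o) * (if k ∈ Orb X k0 then X.chi j0 k else 0) +
          (if k = X.o then X.chi j0 k * (((Orb X k0).card : ℂ) * X.y k0) else 0) := by
        intro k _
        rw [hG, he, hT]
        split_ifs <;> ring
      rw [Finset.sum_congr rfl h1, Finset.sum_add_distrib, ← Finset.mul_sum,
        Finset.sum_ite_eq' Finset.univ X.o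
          (fun k => X.chi j0 k * (((Orb X k0).card : ℂ) * X.y k0)),
        if_pos (Finset.mem_univ _), X.chi_o, one_mul, Finset.sum_ite_mem, Finset.univ_inter]
    rw [hchi] at htor
    have hgQ : (p : ℚ) - X.y X.o ≠ 0 := by
      have : (p : ℤ) - X.y X.o ≠ 0 := by omega
      exact_mod_cast this
    have hint : IsIntegral ℤ (∑ i ∈ Orb X k0, X.chi j0 i) :=
      IsIntegral.sum _ fun i _ => X.chi_int _ _
    have hq : (((-(((Orb X k0).card : ℚ) * X.y k0) / ((p : ℚ) - X.y X.o) : ℚ)) : ℂ) =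
        ∑ i ∈ Orb X k0, X.chi j0 i := by
      push_cast
      rw [div_eq_iff hgC]
      linear_combination (-1 : ℂ) * htor
    obtain ⟨m, hm⟩ := hrb _ (hq ▸ hint)
    rw [eq_div_iff hgQ] at hm
    refine ⟨-m, ?_⟩
    have h3 : (m : ℚ) * ((p : ℚ) - X.y X.o) = -(((Orb X k0).card : ℚ) * X.y k0) := hm
    have h4 : m * ((p : ℤ) - X.y X.o) = -(((Orb X k0).card : ℤ) * X.y k0) := by
      exact_mod_cast h3
    linear_combination h4

end Pool.Agent.Helper10.PQ0
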